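import Pool.Agent.Q267.ST.Stm

/-!
# The soft Stepanov method: the abstract theorem (job ST-Abs)
-/

set_option autoImplicit false

open Finset

namespace Pool.Agent.Q95.ST

open Pool.Agent.Q267.ST PowerSeries

theorem iter_formula {k : Type} [Field k] (p : ℕ) [CharP k p] {I : Type} [Fintype I]
    (q : Polynomial k) (M : I → I → Polynomial k) (Z : I → Polynomial k)
    (hZ : ∀ e, q * Polynomial.derivative (Z e) = ∑ e', M e' e * Z e') (β : ℕ)
    (c : ℕ → I → Polynomial k) (n : ℕ) :
    (fun f : Polynomial k => q * Polynomial.derivative f)^[n]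
      (∑ b ∈ range β, Polynomial.X ^ (p * b) * ∑ e, c b e * Z e) =
      ∑ b ∈ range β, Polynomial.X ^ (p * b) * ∑ e, (opL q M)^[n] (c b) e * Z e := by
  induction n with
  | zero => simp
  | succ n ih =>
    rw [Function.iterate_succ_apply', ih, Polynomial.derivative_sum, Finset.mul_sum]
    refine Finset.sum_congr rfl fun b _ => ?_
    rw [Polynomial.derivative_mul, Polynomial.derivative_X_pow]
    have h0 : ((p * b : ℕ) : k) = 0 := by
      rw [Nat.cast_mul, CharP.cast_eq_zero, zero_mul]
    rw [h0, Polynomial.C_0, zero_mul, zero_mul, zero_add, mul_left_comm]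
    congr 1
    rw [Polynomial.derivative_sum, Finset.mul_sum]
    have h1 : ∀ e, q * Polynomial.derivative ((opL q M)^[n] (c b) e * Z e) =
        q * Polynomial.derivative ((opL q M)^[n] (c b) e) * Z e +
          ∑ e', M e' e * (opL q M)^[n] (c b) e * Z e' := by
      intro e
      rw [Polynomial.derivative_mul]
      have h2 : ∑ e', M e' e * (opL q M)^[n] (c b) e * Z e' =
          (opL q M)^[n] (c b) e * (q * Polynomial.derivative (Z e)) := by
        rw [hZ e, Finset.mul_sum]
        exact Finset.sum_congr rfl fun e' _ => by ring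
      rw [h2]
      ring
    rw [Finset.sum_congr rfl fun e _ => h1 e, Finset.sum_add_distrib, Finset.sum_comm,
      ← Finset.sum_add_distrib]
    refine Finset.sum_congr rfl fun e _ => ?_
    rw [Function.iterate_succ_apply']
    unfold opL
    rw [add_mul, Finset.sum_mul]

theorem abs (hC : S_Cert) (hV : S_Van) (hX : S_Aux) : S_Abs := by
  intro A _ _ I _ _ z hz q M hq hM I₀ N β hβ
  classical
  set δ := max q.natDegree (Finset.univ.sup fun x : I × I => (M x.1 x.2).natDegree) with hδ
  have hδM : ∀ i j, (M i j).natDegree ≤ δ := fun i j =>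
    (Finset.le_sup (f := fun x : I × I => (M x.1 x.2).natDegree) (Finset.mem_univ (i, j))).trans
      (le_max_right _ _)
  have hδq : q.natDegree ≤ δ := le_max_left _ _
  clear_value δ
  obtain ⟨n₀, a, ha, hcert⟩ := hC A I z hz (β + N * δ + 1)
  refine ⟨β + 2 * (N * δ), max n₀ N, a * q.leadingCoeff,
    mul_ne_zero ha (Polynomial.leadingCoeff_ne_zero.2 hq), ?_⟩
  intro p k _ _ φ hp hp0 hφ Z G dZ hG hG0 hZ hZd T hT
  have : Fact p.Prime := ⟨hp⟩
  rw [map_mul] at hφ
  have hφa : φ a ≠ 0 := left_ne_zero_of_mul hφ
  have hφl : φ q.leadingCoeff ≠ 0 := right_ne_zero_of_mul hφ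
  have hn0p : n₀ ≤ p := (le_max_left _ _).trans hp0
  have hNp : N ≤ p := (le_max_right _ _).trans hp0
  set q' : Polynomial k := q.map φ with hq'
  set M' : I → I → Polynomial k := fun i j => (M i j).map φ with hM'
  have hq'0 : q' ≠ 0 := by
    intro h0
    have h1 := congrArg (fun f : Polynomial k => f.coeff q.natDegree) h0
    simp only [hq', Polynomial.coeff_map, Polynomial.coeff_zero] at h1
    exact hφl h1
  have hq'd : q'.natDegree ≤ δ := Polynomial.natDegree_map_le.trans hδq
  have hM'd : ∀ i j, (M' i j).natDegree ≤ δ := fun i j => Polynomial.natDegree_map_le.trans (hδM i j)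
  -- the differential equation for the polynomials
  have hZeq : ∀ e, q' * Polynomial.derivative (Z e) = ∑ e', M' e' e * Z e' := by
    intro e
    have h1 : ((q' * Polynomial.derivative (Z e) : Polynomial k) : PowerSeries k) =
        ((∑ e', M' e' e * Z e' : Polynomial k) : PowerSeries k) := by
      have h2 : ((Polynomial.derivative (Z e) : Polynomial k) : PowerSeries k) =
          G * d⁄dX k (PowerSeries.map φ (z e)) := by
        rw [← PowerSeries.derivative_coe, hZ e, Derivation.leibniz, hG, smul_zero, add_zero,
          smul_eq_mul]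
      have h3 : d⁄dX k (PowerSeries.map φ (z e)) = PowerSeries.map φ (d⁄dX A (z e)) := by
        ext n
        rw [PowerSeries.coeff_derivative, PowerSeries.coeff_map, PowerSeries.coeff_map,
          PowerSeries.coeff_derivative, map_mul, map_add, map_natCast, map_one]
      have h4 := congrArg (PowerSeries.map φ) (hM e)
      rw [map_mul, map_sum] at h4
      have h5 : ∀ f : Polynomial A, PowerSeries.map φ (f : PowerSeries A) =
          ((f.map φ : Polynomial k) : PowerSeries k) := fun f => (Polynomial.polynomial_map_coe).symm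
      rw [h5] at h4
      rw [Polynomial.coe_mul, h2, h3, mul_left_comm, h4, Finset.mul_sum,
        ← Polynomial.coeToPowerSeries.ringHom_apply, map_sum]
      refine Finset.sum_congr rfl fun e' _ => ?_
      rw [Polynomial.coeToPowerSeries.ringHom_apply, Polynomial.coe_mul, hZ e', map_mul, h5]
      ring
    exact Polynomial.coe_injective k h1
  obtain ⟨c, hc1, hc2, hc3, hc4⟩ := hX k I I₀ q' M' δ N β hq'd hM'd hβ
  set s : Polynomial k := ∑ b ∈ range β, Polynomial.X ^ (p * b) * ∑ e, c b e * Z e with hs
  -- the degree
  have hdeg : s.natDegree ≤ β * p + (β + N * δ) + dZ := by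
    rw [hs]
    refine Polynomial.natDegree_sum_le_of_forall_le _ _ fun b hb => ?_
    rw [Finset.mem_range] at hb
    refine Polynomial.natDegree_mul_le.trans ?_
    rw [Polynomial.natDegree_X_pow]
    have h1 : (∑ e, c b e * Z e).natDegree ≤ (β + N * δ) + dZ := by
      refine Polynomial.natDegree_sum_le_of_forall_le _ _ fun e _ => ?_
      refine Polynomial.natDegree_mul_le.trans (add_le_add ?_ (hZd e))
      have h2 := hc1 b e
      by_cases h3 : c b e = 0
      · rw [h3]; simp
      · rw [Polynomial.degree_eq_natDegree h3] at h2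
        have h4 : (c b e).natDegree < β + N * δ + 1 := by exact_mod_cast h2
        omega
    have h2 : p * b ≤ β * p := by
      rw [mul_comm]
      exact Nat.mul_le_mul_right p hb.le
    omega
  -- not zero
  have hs0 : s ≠ 0 := by
    intro h0
    have hex : ∃ b, c b ≠ 0 := by
      by_contra hne
      push Not at hne
      exact hc3 (funext hne)
    set b0 := Nat.find hex with hb0
    have hb0c : c b0 ≠ 0 := Nat.find_spec hex
    have hb0min : ∀ b < b0, c b = 0 := fun b hb => by
      have := Nat.find_min hex hb
      push Not at this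
      exact this
    have hb0β : b0 < β := by
      by_contra h1
      push Not at h1
      exact hb0c (hc2 b0 h1)
    refine hb0c (hcert k φ hφa (c b0) (hc1 b0) fun n hn => ?_)
    have hnp : n < p := hn.trans_le hn0p
    -- the power series identity
    set W : ℕ → PowerSeries k := fun b => ∑ e, (c b e : PowerSeries k) * PowerSeries.map φ (z e)
      with hW
    have h1 : G * ∑ b ∈ range β, (PowerSeries.X : PowerSeries k) ^ (p * b) * W b = 0 := by
      have h2 : ((s : Polynomial k) : PowerSeries k) = 0 := by rw [h0, Polynomial.coe_zero]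
      rw [← h2, hs, ← Polynomial.coeToPowerSeries.ringHom_apply, map_sum, Finset.mul_sum]
      refine Finset.sum_congr rfl fun b _ => ?_
      rw [map_mul, map_pow, map_sum, Polynomial.coeToPowerSeries.ringHom_apply, Polynomial.coe_X,
        mul_left_comm]
      congr 1
      simp only [hW]
      rw [Finset.mul_sum]
      refine Finset.sum_congr rfl fun e _ => ?_
      rw [map_mul, Polynomial.coeToPowerSeries.ringHom_apply,
        Polynomial.coeToPowerSeries.ringHom_apply, hZ e]
      ring
    have hG1 : G ≠ 0 := by
      rintro rfl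
      simp at hG0
    have h2 : ∑ b ∈ range β, (PowerSeries.X : PowerSeries k) ^ (p * b) * W b = 0 :=
      (mul_eq_zero.1 h1).resolve_left hG1
    have h3 := congrArg (PowerSeries.coeff (n + p * b0)) h2
    rw [map_sum, map_zero, Finset.sum_eq_single b0] at h3
    · rw [PowerSeries.coeff_X_pow_mul] at h3
      exact h3
    · intro b _ hne
      rcases lt_or_gt_of_ne hne with hb | hb
      · have : W b = 0 := by
          simp only [hW]
          rw [hb0min b hb]
          simp
        rw [this, mul_zero, map_zero]
      · rw [PowerSeries.coeff_X_pow_mul', if_neg]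
        have h4 : p * (b0 + 1) ≤ p * b := Nat.mul_le_mul_left p hb
        rw [mul_add, mul_one] at h4
        omega
    · intro h4
      exact absurd (Finset.mem_range.2 hb0β) h4
  -- vanishing
  set T' := T.filter (fun t => q'.eval t ≠ 0) with hT'
  have hvan := hV k p q' s N T' hNp hs0 (fun t ht => by
    obtain ⟨ht1, ht2⟩ := Finset.mem_filter.1 ht
    refine ⟨ht2, fun n hn => ?_⟩
    obtain ⟨ht3, ht4⟩ := hT t ht1
    rw [hs, iter_formula p q' M' Z hZeq β c n, Polynomial.eval_finsetSum]
    have h1 : ∀ b ∈ range β, (Polynomial.X ^ (p * b) * ∑ e, (opL q' M')^[n] (c b) e * Z e).eval t =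
        ∑ e ∈ I₀, (Z e).eval t * ((Polynomial.X ^ b * (opL q' M')^[n] (c b) e).eval t) := by
      intro b _
      rw [Polynomial.eval_mul, Polynomial.eval_pow, Polynomial.eval_X, pow_mul, ht3,
        Polynomial.eval_finsetSum, Finset.mul_sum,
        ← Finset.sum_subset (Finset.subset_univ I₀)]
      · refine Finset.sum_congr rfl fun e _ => ?_
        rw [Polynomial.eval_mul, Polynomial.eval_mul, Polynomial.eval_pow, Polynomial.eval_X]
        ring
      · intro e _ he
        rw [Polynomial.eval_mul, ht4 e he, mul_zero, mul_zero]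
    rw [Finset.sum_congr rfl h1, Finset.sum_comm]
    refine Finset.sum_eq_zero fun e he => ?_
    rw [← Finset.mul_sum, ← Polynomial.eval_finsetSum, hc4 n hn e he, Polynomial.eval_zero,
      mul_zero])
  -- the zeros of q
  have hroots : (T.filter (fun t => ¬ q'.eval t ≠ 0)).card ≤ δ := by
    have h1 : T.filter (fun t => ¬ q'.eval t ≠ 0) ⊆ q'.roots.toFinset := by
      intro t ht
      obtain ⟨_, ht2⟩ := Finset.mem_filter.1 ht
      rw [Multiset.mem_toFinset, Polynomial.mem_roots hq'0]
      exact not_not.1 ht2
    calc _ ≤ q'.roots.toFinset.card := Finset.card_le_card h1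
      _ ≤ q'.roots.card := Multiset.toFinset_card_le _
      _ ≤ q'.natDegree := Polynomial.card_roots' q'
      _ ≤ δ := hq'd
  have hcard : T.card = T'.card + (T.filter (fun t => ¬ q'.eval t ≠ 0)).card :=
    (Finset.card_filter_add_card_filter_not _).symm
  have h5 : N * T.card ≤ N * T'.card + N * δ := by
    rw [hcard, mul_add]
    exact Nat.add_le_add_left (Nat.mul_le_mul_left N hroots) _
  omega

end Pool.Agent.Q95.ST
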